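import Pool.Agent.Y508.NZ.Hens

/-! The local argument: constant coefficients of roots. -/

set_option autoImplicit false
set_option linter.all false

open Polynomial IsDedekindDomain

namespace Pool.Agent.Y508.NZ

section
variable {k' : Type} [Field k']

/-- the expansion at `θ` -/
noncomputable def ex0 (θ : k') : k'[X] →+* LaurentSeries k' :=
  eval₂RingHom (HahnSeries.C) (HahnSeries.C θ + HahnSeries.single 1 1)

/-- the expansion at `θ` as a power series -/
noncomputable def exP (θ : k') : k'[X] →+* PowerSeries k' :=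
  eval₂RingHom (PowerSeries.C) (PowerSeries.C θ + PowerSeries.X)

theorem ex0_eq (θ : k') (p : k'[X]) : ex0 θ p = HahnSeries.ofPowerSeries ℤ k' (exP θ p) := by
  have h : ex0 θ = (HahnSeries.ofPowerSeries ℤ k').comp (exP θ) := by
    apply Polynomial.ringHom_ext
    · intro a
      simp [ex0, exP]
    · simp [ex0, exP]
  rw [h]; rfl

theorem exP_const (θ : k') (p : k'[X]) : PowerSeries.constantCoeff (exP θ p) = p.eval θ := by
  have h : (PowerSeries.constantCoeff (R := k')).comp (exP θ) = evalRingHom θ := by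
    apply Polynomial.ringHom_ext
    · intro a
      simp [exP]
    · simp [exP]
  have := congrArg (fun f => f p) h
  exact this

theorem coeff_map_of (s : k' →+* k') (u : PowerSeries k') (i : ℤ) :
    (HahnSeries.ofPowerSeries ℤ k' (u.map s)).coeff i =
      s ((HahnSeries.ofPowerSeries ℤ k' u).coeff i) := by
  by_cases hi : 0 ≤ i
  · obtain ⟨n, rfl⟩ := Int.eq_ofNat_of_zero_le hi
    rw [HahnSeries.ofPowerSeries_apply_coeff, HahnSeries.ofPowerSeries_apply_coeff,
      PowerSeries.coeff_map]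
  · have hr : i ∉ Set.range (Nat.castOrderEmbedding : ℕ ↪o ℤ) := by
      rintro ⟨n, rfl⟩
      exact hi (Int.natCast_nonneg n)
    rw [HahnSeries.ofPowerSeries_apply, HahnSeries.ofPowerSeries_apply,
      HahnSeries.embDomain_of_notMem_range hr, HahnSeries.embDomain_of_notMem_range hr, map_zero]

variable {k : Type} [Field k] [CharZero k] [Algebra k k'] [IsSepClosure k k']

theorem core {ℓ : ℕ} (hℓ : ℓ.Prime) {ζ : k} (hζ : IsPrimitiveRoot ζ ℓ) (θ : k') (q : k[X])
    (hq : aeval θ q ≠ 0) {Ω' : Type} [Field Ω'] [Algebra (LaurentSeries k') Ω'] (Y : Ω')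
    (hY : Y ^ ℓ = algebraMap (LaurentSeries k') Ω' (ex0 θ (q.map (algebraMap k k'))))
    (hs : ∀ s : k' ≃ₐ[k] k', s θ = θ → ∃ S : Ω' →+* Ω',
      (∀ x y : LaurentSeries k', (∀ i, y.coeff i = s (x.coeff i)) →
        S (algebraMap (LaurentSeries k') Ω' x) = algebraMap (LaurentSeries k') Ω' y) ∧ S Y = Y) :
    ∃ α : k', α ≠ 0 ∧ α ^ ℓ = aeval θ q ∧ ∀ s : k' ≃ₐ[k] k', s θ = θ → s α = α := by
  haveI : CharZero k' := charZero_of_injective_algebraMap (algebraMap k k').injective
  haveI : IsSepClosed k' := IsSepClosure.sep_closed k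
  have hℓk : (ℓ : k') ≠ 0 := Nat.cast_ne_zero.2 hℓ.ne_zero
  haveI : NeZero (ℓ : k') := ⟨hℓk⟩
  haveI : NeZero ℓ := ⟨hℓ.ne_zero⟩
  obtain ⟨c, hc⟩ := IsSepClosed.exists_pow_nat_eq (aeval θ q) ℓ
  have hc0 : c ≠ 0 := by
    rintro rfl
    rw [zero_pow hℓ.ne_zero] at hc
    exact hq hc.symm
  have hconst : PowerSeries.constantCoeff (exP θ (q.map (algebraMap k k'))) = aeval θ q := by
    rw [exP_const, eval_map_algebraMap]
  obtain ⟨u, hu, hu'⟩ := ps_root ℓ hℓk (exP θ (q.map (algebraMap k k'))) c hc0 (hc.trans hconst.symm)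
  set A : PowerSeries k' →+* Ω' :=
    (algebraMap (LaurentSeries k') Ω').comp (HahnSeries.ofPowerSeries ℤ k') with hA
  have hAi : Function.Injective A :=
    (algebraMap (LaurentSeries k') Ω').injective.comp HahnSeries.ofPowerSeries_injective
  have hAu : (A u) ^ ℓ = Y ^ ℓ := by
    rw [← map_pow, hu, hY, ex0_eq]; rfl
  have hu0 : A u ≠ 0 := by
    intro h0
    have h1 : u = 0 := hAi (by rw [h0, map_zero])
    rw [h1, map_zero] at hu'
    exact hc0 hu'.symm
  have hz : IsPrimitiveRoot ((A.comp PowerSeries.C) (algebraMap k k' ζ)) ℓ :=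
    (hζ.map_of_injective (algebraMap k k').injective).map_of_injective
      (A.comp PowerSeries.C).injective
  have h1 : (Y / A u) ^ ℓ = 1 := by
    rw [div_pow, ← hAu, div_self (pow_ne_zero _ hu0)]
  obtain ⟨i, -, hi⟩ := hz.eq_pow_of_pow_eq_one h1
  set u1 : PowerSeries k' := PowerSeries.C ((algebraMap k k' ζ) ^ i) * u with hu1
  have hY1 : Y = A u1 := by
    rw [hu1, map_mul, map_pow, map_pow]
    have h2 : A (PowerSeries.C ((algebraMap k k') ζ)) ^ i = Y / A u := hi
    rw [h2, div_mul_cancel₀ _ hu0]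
  have hζ0 : algebraMap k k' ζ ≠ 0 := by
    rw [Ne, map_eq_zero]
    exact hζ.ne_zero hℓ.ne_zero
  have hcc : PowerSeries.constantCoeff u1 = (algebraMap k k' ζ) ^ i * c := by
    rw [hu1, map_mul, PowerSeries.constantCoeff_C, hu']
  refine ⟨PowerSeries.constantCoeff u1, ?_, ?_, ?_⟩
  · rw [hcc]
    exact mul_ne_zero (pow_ne_zero _ hζ0) hc0
  · rw [hcc, mul_pow, hc, ← pow_mul, mul_comm i, pow_mul, ← map_pow, hζ.pow_eq_one, map_one,
      one_pow, one_mul]
  · intro s hsθ
    obtain ⟨S, hS, hSY⟩ := hs s hsθ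
    have h2 := hS (HahnSeries.ofPowerSeries ℤ k' u1)
      (HahnSeries.ofPowerSeries ℤ k' (u1.map (s : k' →+* k')))
      (fun j => coeff_map_of (s : k' →+* k') u1 j)
    have h3 : S (A u1) = A (u1.map (s : k' →+* k')) := h2
    rw [← hY1, hSY, hY1] at h3
    have h4 := hAi h3
    have h5 : PowerSeries.coeff 0 u1 = PowerSeries.coeff 0 (u1.map (s : k' →+* k')) := by
      rw [← h4]
    rw [PowerSeries.coeff_map, PowerSeries.coeff_zero_eq_constantCoeff_apply] at h5
    exact h5.symm

end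

end Pool.Agent.Y508.NZ
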