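import Pool.Agent.Y164.NZ.StmT
import Pool.Agent.Y713.TG.Kmm
import Pool.Agent.Y508.NZ.Core

/-! NZT-LOCB: an element whose roots are fixed by the local automorphisms is a local `ℓ`-th power. -/

set_option autoImplicit false
set_option linter.all false

open Polynomial IsDedekindDomain

namespace Pool.Agent.Y508.NZ

open Pool.Agent.Y713.SE
open Pool.Agent.Y164.NZ

section
variable {k K : Type} [Field k] [Field K] [Algebra k[X] K] [IsFractionRing k[X] K]

/-- an element of order divisible by `ℓ` is a unit times an `ℓ`-th power -/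
theorem unit_rep {ℓ : ℕ} (hℓ : ℓ.Prime) (v : HeightOneSpectrum k[X]) {x : K} (hx : x ≠ 0)
    (h : ov ℓ v x = 0) : ∃ (q : k[X]) (g : K), g ≠ 0 ∧ q ∉ v.asIdeal ∧
      algebraMap k[X] K q = x * g ^ ℓ := by
  obtain ⟨π, hπ, -, rfl⟩ := exists_gen v
  have inj : Function.Injective (algebraMap k[X] K) := IsFractionRing.injective k[X] K
  obtain ⟨p1, p2, hp2, rfl⟩ := IsFractionRing.div_surjective (A := k[X]) x
  have h2 : algebraMap k[X] K p2 ≠ 0 := fun h0 => by
    rw [h0, div_zero] at hx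
    exact hx rfl
  have h1 : algebraMap k[X] K p1 ≠ 0 := fun h0 => by
    rw [h0, zero_div] at hx
    exact hx rfl
  have hp1 : p1 ≠ 0 := fun h0 => h1 (by rw [h0, map_zero])
  have hp20 : p2 ≠ 0 := fun h0 => h2 (by rw [h0, map_zero])
  have hπ0 : algebraMap k[X] K π ≠ 0 := fun h0 => hπ.ne_zero (inj (by rw [h0, map_zero]))
  obtain ⟨q, hq, hq'⟩ := (FiniteMultiplicity.of_not_isUnit hπ.not_isUnit
    (mul_ne_zero hp1 (pow_ne_zero (ℓ - 1) hp20))).exists_eq_pow_mul_and_not_dvd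
  set m := multiplicity π (p1 * p2 ^ (ℓ - 1)) with hm
  have hqm : q ∉ (hp π hπ).asIdeal := by rw [mem_hp]; exact hq'
  have hqK : algebraMap k[X] K q ≠ 0 := by
    intro h0
    apply hqm
    rw [inj (h0.trans (map_zero _).symm)]
    exact Ideal.zero_mem _
  have hE : algebraMap k[X] K p1 / algebraMap k[X] K p2 * (algebraMap k[X] K p2) ^ ℓ =
      (algebraMap k[X] K π) ^ m * algebraMap k[X] K q := by
    have e1 : (algebraMap k[X] K π) ^ m * algebraMap k[X] K q =
        algebraMap k[X] K p1 * (algebraMap k[X] K p2) ^ (ℓ - 1) := by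
      rw [← map_pow, ← map_mul, ← hq, map_mul, map_pow]
    rw [e1]
    have e2 : (algebraMap k[X] K p2) ^ ℓ = (algebraMap k[X] K p2) ^ (ℓ - 1) * algebraMap k[X] K p2 := by
      rw [← pow_succ, Nat.sub_add_cancel hℓ.one_le]
    rw [e2]
    field_simp
  have ho := congrArg (ov ℓ (hp π hπ)) hE
  rw [ov_mul hx (pow_ne_zero _ h2), h, ov_powl, add_zero, ov_mul (pow_ne_zero _ hπ0) hqK, ov_pow,
    ov_of_one (x := algebraMap k[X] K q) ((val_eq_one_iff _ q).2 hqm), add_zero] at ho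
  have hov : ov ℓ (hp π hπ) (algebraMap k[X] K π) = -1 := by
    unfold ov lg
    rw [val_hp_self, WithZero.log_exp]
    push_cast
    rfl
  rw [hov, mul_neg, mul_one, eq_comm, neg_eq_zero, ZMod.natCast_eq_zero_iff] at ho
  obtain ⟨a, ha⟩ := ho
  refine ⟨q, algebraMap k[X] K p2 / (algebraMap k[X] K π) ^ a, div_ne_zero h2 (pow_ne_zero _ hπ0),
    hqm, ?_⟩
  rw [div_pow, ← mul_div_assoc, hE, ← pow_mul, mul_comm a ℓ, ← ha,
    mul_div_cancel_left₀ _ (pow_ne_zero _ hπ0)]

theorem lift_pow {ℓ : ℕ} (v : HeightOneSpectrum k[X]) (hℓ : (ℓ : k) ≠ 0) {q r : k[X]}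
    (hr : r ∉ v.asIdeal) (h : r ^ ℓ - q ∈ v.asIdeal) :
    ∃ w : v.adicCompletion K, w ^ ℓ = algebraMap K (v.adicCompletion K) (algebraMap k[X] K q) := by
  haveI : (Valued.v : Valuation (v.adicCompletion K) (WithZero (Multiplicative ℤ))).IsNontrivial := by
    obtain ⟨x, hx⟩ := v.valuation_exists_uniformizer K
    refine ⟨algebraMap K _ x, ?_, ?_⟩
    · rw [val_coe, hx]; simp
    · rw [val_coe, hx]
      intro h
      have h2 : (WithZero.exp (-1 : ℤ)) = WithZero.exp (0 : ℤ) := by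
        rw [h, WithZero.exp_zero]
      have h3 := WithZero.exp_injective h2
      omega
  refine pow_lift ℓ ?_ _ (algebraMap K (v.adicCompletion K) (algebraMap k[X] K r)) ?_ ?_
  · rw [← map_natCast (algebraMap K (v.adicCompletion K)), val_coe,
      ← map_natCast (algebraMap k[X] K), ← map_natCast C, val_C hℓ]
  · rw [val_coe, val_eq_one_iff]
    exact hr
  · rw [← map_pow, ← map_pow, ← map_sub, ← map_sub, val_coe,
      HeightOneSpectrum.valuation_lt_one_iff_mem]
    exact h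

end

theorem t : S_LOCB := by
  intro ℓ k k' K F Ω _ _ _ _ _ _ _ _ _ _ _ _ _ _ _ _ _ _ _ _ hKF hℓ ζ hζ θ ld v hv x y hx hy
    hov hs
  obtain ⟨q, g, hg, hq, hqe⟩ := unit_rep hℓ v hx hov
  haveI : CharZero k' := charZero_of_injective_algebraMap (algebraMap k k').injective
  have hyg : (y * algebraMap K Ω g) ^ ℓ = algebraMap K Ω (algebraMap k[X] K q) := by
    rw [mul_pow, hy, ← map_pow, ← map_mul, ← hqe]
  have hY : (ld.ι (y * algebraMap K Ω g)) ^ ℓ =
      algebraMap (LaurentSeries k') (AlgebraicClosure (LaurentSeries k'))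
        (ex0 θ (q.map (algebraMap k k'))) := by
    rw [← map_pow, hyg, IsScalarTower.algebraMap_apply K F Ω, hKF, ld.hι]
    rfl
  obtain ⟨α, hα0, hα, hfix⟩ := core hℓ hζ θ q (fun h0 => hq ((hv q).2 h0)) _ hY (fun s hsθ => by
    obtain ⟨τ, ⟨S, hS1, hS2⟩, hτ⟩ := hs s hsθ
    refine ⟨S.toRingHom, hS1, ?_⟩
    have h1 := hS2 (y * algebraMap K Ω g)
    rw [map_mul τ, hτ, τ.commutes] at h1
    exact h1)
  haveI : IsGalois k k' := inferInstance
  obtain ⟨r, hr⟩ := exists_poly_of_stab hfix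
  obtain ⟨w, hw⟩ := lift_pow (K := K) v (Nat.cast_ne_zero.2 hℓ.ne_zero) (q := q) (r := r)
    (fun h0 => hα0 (by rw [← hr]; exact (hv r).1 h0))
    ((hv _).2 (by rw [map_sub, map_pow, hr, hα, sub_self]))
  have hg' : algebraMap K (v.adicCompletion K) g ≠ 0 := by
    rw [Ne, map_eq_zero]
    exact hg
  refine ⟨w / algebraMap K (v.adicCompletion K) g, ?_⟩
  rw [div_pow, hw, hqe, map_mul, map_pow, mul_div_cancel_right₀ _ (pow_ne_zero _ hg')]

end Pool.Agent.Y508.NZ
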