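import Mathlib

/-! Lifting of roots in complete valued fields and in power series rings. -/

set_option autoImplicit false
set_option linter.all false

open Polynomial IsDedekindDomain

namespace Pool.Agent.Y508.NZ

section
variable {E : Type*} [Field E] (V : Valuation E (WithZero (Multiplicative ℤ)))

theorem pow_near (x y : E) (hx : V x ≤ 1) (hy : V y ≤ 1) (γ : WithZero (Multiplicative ℤ))
    (h : V (x - y) ≤ γ) (n : ℕ) : V (x ^ n - y ^ n) ≤ γ := by
  induction n with
  | zero => simp
  | succ n ih =>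
    have h1 : x ^ (n + 1) - y ^ (n + 1) = (x ^ n - y ^ n) * x + y ^ n * (x - y) := by ring
    rw [h1]
    refine (Valuation.map_add _ _ _).trans (max_le ?_ ?_)
    · rw [map_mul]
      exact mul_le_of_le_of_le_one ih hx
    · rw [map_mul, map_pow, mul_comm]
      exact mul_le_of_le_of_le_one h (pow_le_one' hy n)

theorem mul_near (x x' y y' : E) (hx : V x ≤ 1) (hy' : V y' ≤ 1) (γ : WithZero (Multiplicative ℤ))
    (h : V (x - x') ≤ γ) (h' : V (y - y') ≤ γ) : V (x * y - x' * y') ≤ γ := by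
  have h1 : x * y - x' * y' = (x - x') * y' + (y - y') * x := by ring
  rw [h1]
  refine (Valuation.map_add _ _ _).trans (max_le ?_ ?_)
  · rw [map_mul]
    exact mul_le_of_le_of_le_one h hy'
  · rw [map_mul]
    exact mul_le_of_le_of_le_one h' hx

theorem diff_bound (n : ℕ) (b y z : E) (hb : V b ≤ 1)
    (hy : V y ≤ 1) (hz : V z ≤ 1) (γ : WithZero (Multiplicative ℤ)) (hyb : V (y - b) ≤ γ)
    (hzb : V (z - b) ≤ γ) :
    V (y ^ n - z ^ n - (n : E) * b ^ (n - 1) * (y - z)) ≤ γ * V (y - z) := by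
  have h1 : y ^ n - z ^ n - (n : E) * b ^ (n - 1) * (y - z) =
      (∑ i ∈ Finset.range n, (y ^ i * z ^ (n - 1 - i) - b ^ i * b ^ (n - 1 - i))) * (y - z) := by
    rw [Finset.sum_sub_distrib, sub_mul, ← geom_sum₂_mul]
    congr 2
    rw [Finset.sum_congr rfl (g := fun _ => b ^ (n - 1))]
    · simp
    · intro i hi
      rw [← pow_add]
      congr 1
      have := Finset.mem_range.1 hi
      omega
  rw [h1, map_mul]
  refine mul_le_mul_left ?_ _
  refine Valuation.map_sum_le _ fun i _ => ?_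
  refine mul_near V _ _ _ _ ?_ ?_ γ (pow_near V _ _ hy hb γ hyb i) (pow_near V _ _ hz hb γ hzb _)
  · rw [map_pow]
    exact pow_le_one' hy i
  · rw [map_pow]
    exact pow_le_one' hb _

end

section
variable {F : Type} [Field F] [hv : Valued F (WithZero (Multiplicative ℤ))]

theorem pow_lift_aux [CompleteSpace F]
    [(Valued.v : Valuation F (WithZero (Multiplicative ℤ))).RankOne]
    (ℓ : ℕ) (hℓ : Valued.v (ℓ : F) = (1 : WithZero (Multiplicative ℤ))) (u b : F)
    (hb : Valued.v b = (1 : WithZero (Multiplicative ℤ)))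
    (h : Valued.v (b ^ ℓ - u) < (1 : WithZero (Multiplicative ℤ))) : ∃ w : F, w ^ ℓ = u := by
  set V : Valuation F (WithZero (Multiplicative ℤ)) := Valued.v with hV
  letI : NontriviallyNormedField F := Valued.toNontriviallyNormedField (L := F)
    (Γ₀ := WithZero (Multiplicative ℤ))
  have hle : ∀ x y : F, ‖x‖ ≤ ‖y‖ ↔ V x ≤ V y := fun x y => Valued.toNormedField.norm_le_iff
  set π : F := b ^ ℓ - u with hπ
  set d : F := (ℓ : F) * b ^ (ℓ - 1) with hd
  have hd1 : V d = 1 := by rw [hd, map_mul, map_pow, hℓ, hb, one_pow, one_mul]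
  have hd0 : d ≠ 0 := by
    intro h2
    rw [h2, map_zero] at hd1
    exact zero_ne_one hd1
  let s : Set F := {y | ‖y - b‖ ≤ ‖π‖}
  have hs : IsComplete s := by
    apply IsClosed.isComplete
    exact isClosed_le (by fun_prop) continuous_const
  have hint : ∀ y ∈ s, V y ≤ 1 := by
    intro y hy
    have h2 : V (y - b) ≤ V π := (hle _ _).1 hy
    have h3 : y = (y - b) + b := by ring
    rw [h3]
    exact (Valuation.map_add _ _ _).trans (max_le (h2.trans h.le) hb.le)
  let T : F → F := fun y => y - (y ^ ℓ - u) / d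
  have hT : ∀ y ∈ s, ∀ z ∈ s, V (T y - T z) ≤ V π * V (y - z) := by
    intro y hy z hz
    have h2 : T y - T z = -((y ^ ℓ - z ^ ℓ - d * (y - z)) / d) := by
      simp only [T]
      field_simp
      ring
    rw [h2, Valuation.map_neg, map_div₀, hd1, div_one]
    exact diff_bound V ℓ b y z hb.le (hint y hy) (hint z hz) _ ((hle _ _).1 hy) ((hle _ _).1 hz)
  have hbs : b ∈ s := by
    change ‖b - b‖ ≤ ‖π‖
    rw [sub_self, norm_zero]
    exact norm_nonneg _
  have hmaps : Set.MapsTo T s s := by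
    intro y hy
    change ‖T y - b‖ ≤ ‖π‖
    rw [hle]
    have h2 : T y - b = (T y - T b) + (T b - b) := by ring
    rw [h2]
    refine (Valuation.map_add _ _ _).trans (max_le ?_ ?_)
    · refine (hT y hy b hbs).trans ?_
      have h3 : V (y - b) ≤ V π := (hle _ _).1 hy
      exact mul_le_of_le_one_right' (h3.trans h.le)
    · have h3 : T b - b = -((b ^ ℓ - u) / d) := by
        simp only [T]
        ring
      rw [h3, Valuation.map_neg, map_div₀, hd1, div_one]
  have hπn : ‖π‖ < 1 := by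
    rw [← norm_one (α := F)]
    rw [← not_le, hle, not_le, map_one]
    exact h
  have hcon : ContractingWith ⟨‖π‖, norm_nonneg _⟩ (hmaps.restrict T s s) := by
    refine ⟨by exact_mod_cast hπn, ?_⟩
    apply LipschitzWith.of_dist_le_mul
    rintro ⟨y, hy⟩ ⟨z, hz⟩
    change dist (T y) (T z) ≤ ‖π‖ * dist y z
    rw [dist_eq_norm, dist_eq_norm, ← norm_mul, hle, map_mul]
    exact hT y hy z hz
  obtain ⟨y, hys, hy, -⟩ := hcon.exists_fixedPoint' hs hmaps hbs (edist_ne_top _ _)
  refine ⟨y, ?_⟩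
  have h2 : y - (y ^ ℓ - u) / d = y := hy
  have h3 : (y ^ ℓ - u) / d = 0 := by
    have := congrArg (fun t => y - t) h2
    simpa using this
  rcases div_eq_zero_iff.1 h3 with h4 | h4
  · exact sub_eq_zero.1 h4
  · exact absurd h4 hd0

theorem pow_lift [CompleteSpace F]
    [hnt : (Valued.v : Valuation F (WithZero (Multiplicative ℤ))).IsNontrivial]
    (ℓ : ℕ) (hℓ : Valued.v (ℓ : F) = (1 : WithZero (Multiplicative ℤ))) (u b : F)
    (hb : Valued.v b = (1 : WithZero (Multiplicative ℤ)))
    (h : Valued.v (b ^ ℓ - u) < (1 : WithZero (Multiplicative ℤ))) : ∃ w : F, w ^ ℓ = u := by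
  have h' : Nonempty (Valued.v : Valuation F (WithZero (Multiplicative ℤ))).RankOne := by
    rw [Valuation.nonempty_rankOne_iff_mulArchimedean]
    exact MulArchimedean.comap (MonoidWithZeroHom.ValueGroup₀.embedding).toMonoidHom
      MonoidWithZeroHom.ValueGroup₀.embedding_strictMono
  obtain ⟨h'⟩ := h'
  exact pow_lift_aux ℓ hℓ u b hb h

end

section
variable {κ : Type} [Field κ]
open PowerSeries

/-- roots of power series -/
theorem ps_root (ℓ : ℕ) (hℓ : (ℓ : κ) ≠ 0) (w : κ⟦X⟧) (c : κ) (hc : c ≠ 0)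
    (h : c ^ ℓ = constantCoeff w) : ∃ u : κ⟦X⟧, u ^ ℓ = w ∧ constantCoeff u = c := by
  have hℓ0 : ℓ ≠ 0 := by rintro rfl; exact hℓ (by simp)
  obtain ⟨α, hα, hα'⟩ := HenselianRing.is_henselian (I := Ideal.span {(PowerSeries.X : κ⟦X⟧)})
    (Polynomial.X ^ ℓ - Polynomial.C w) (Polynomial.monic_X_pow_sub_C w hℓ0) (PowerSeries.C c)
    (by
      rw [Ideal.mem_span_singleton, PowerSeries.X_dvd_iff]
      simp [h])
    (by
      refine (isUnit_iff_constantCoeff.2 (isUnit_iff_ne_zero.2 ?_)).map _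
      rw [Polynomial.derivative_sub, Polynomial.derivative_C, sub_zero,
        Polynomial.derivative_X_pow, Polynomial.eval_mul, Polynomial.eval_pow, Polynomial.eval_X,
        Polynomial.eval_C, map_mul, map_pow, constantCoeff_C, map_natCast]
      exact mul_ne_zero hℓ (pow_ne_zero _ hc))
  refine ⟨α, ?_, ?_⟩
  · have h1 : Polynomial.eval α (Polynomial.X ^ ℓ - Polynomial.C w) = 0 := hα
    simpa [sub_eq_zero] using h1
  · rw [Ideal.mem_span_singleton, PowerSeries.X_dvd_iff, map_sub, constantCoeff_C, sub_eq_zero] at hα'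
    exact hα'

end

end Pool.Agent.Y508.NZ
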